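import Pool.Agent.H785.PE.Class

/-!
# Exponents of products of two subgroups of a finite `p`-group

Let `G = A B` be a finite `p`-group, `exp A = p ^ s`, `exp B = p ^ t`. The bound
`exp G ≤ exp A * exp B` holds if `A` or `B` is normal, and (Howlett) if both are abelian.

1. For odd `p` and all `s`, `t` there are such groups with `p ^ (s + t + min(s, t)) ∣ exp G`.
2. For every prime `p`: `exp G` divides `exp A * exp B` for all groups `G = A B` with these exponents
   if and only if `s = 0` or `t = 0` or `p = 2`, `s = t = 1`.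

Construction. For `s = t = 1`, `p` odd: `N ⋊ (C_p ≀ C_p)`, where `N` consists of functions which are
affine in each of `p` coordinates, `A` is generated by `N` and one coordinate shift and `B` is the
group of exponent `p` of the shifts with the sum zero, extended by the cyclic permutation.
For `p = 2`, exponents `4`, `2`: `N ⋊ (C_2 ≀ C_2 ≀ C_2)`, `|N| = 2 ^ 12`, with an element of order
`16`. The general case follows by regular wreath products.
-/

set_option autoImplicit false

namespace Pool.Agent.Results.MP_87fd0b_al.BeyondTheProduct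

open Pool.Agent.H785.PE

theorem result :
    (∀ p : ℕ, p.Prime → p ≠ 2 → ∀ s t : ℕ,
      ∃ (G : Type) (_ : Group G) (_ : Finite G) (A B : Subgroup G), IsPGroup p G ∧
        (∀ g : G, ∃ a ∈ A, ∃ b ∈ B, g = a * b) ∧
        Monoid.exponent A = p ^ s ∧ Monoid.exponent B = p ^ t ∧
        p ^ (s + t + min s t) ∣ Monoid.exponent G) ∧
    (∀ p : ℕ, p.Prime → ∀ s t : ℕ,
      (∀ (G : Type) [Group G] [Finite G] (A B : Subgroup G), IsPGroup p G →
        (∀ g : G, ∃ a ∈ A, ∃ b ∈ B, g = a * b) →
        Monoid.exponent A = p ^ s → Monoid.exponent B = p ^ t →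
        Monoid.exponent G ∣ p ^ (s + t)) ↔ s = 0 ∨ t = 0 ∨ (p = 2 ∧ s = 1 ∧ t = 1)) := by
  have r1 : ∀ p : ℕ, p.Prime → p ≠ 2 → ∀ s t : ℕ,
      ∃ (G : Type) (_ : Group G) (_ : Finite G) (A B : Subgroup G), IsPGroup p G ∧
        (∀ g : G, ∃ a ∈ A, ∃ b ∈ B, g = a * b) ∧
        Monoid.exponent A = p ^ s ∧ Monoid.exponent B = p ^ t ∧
        p ^ (s + t + min s t) ∣ Monoid.exponent G := by
    intro p hp hp2 s t
    have : Fact p.Prime := ⟨hp⟩
    exact ((base (p := p) hp2).combine s t).result
  have r2 : ∀ s t : ℕ,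
      ∃ (G : Type) (_ : Group G) (_ : Finite G) (A B : Subgroup G), IsPGroup 2 G ∧
        (∀ g : G, ∃ a ∈ A, ∃ b ∈ B, g = a * b) ∧
        Monoid.exponent A = 2 ^ s ∧ Monoid.exponent B = 2 ^ t ∧
        2 ^ (s + t + min (min s t) ((s + t) / 3)) ∣ Monoid.exponent G := by
    intro s t
    have : Fact (Nat.Prime 2) := ⟨Nat.prime_two⟩
    exact (two_all s t).result
  refine ⟨r1, ?_⟩
  intro p hp s t
  constructor
  · intro h
    by_contra hc
    simp only [not_or, not_and] at hc
    obtain ⟨hs, ht, h2⟩ := hc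
    obtain ⟨m, hm, G, i1, i2, A, B, hG, hf, hA, hB, hE⟩ : ∃ m : ℕ, s + t + 1 ≤ m ∧
        ∃ (G : Type) (_ : Group G) (_ : Finite G) (A B : Subgroup G), IsPGroup p G ∧
        (∀ g : G, ∃ a ∈ A, ∃ b ∈ B, g = a * b) ∧
        Monoid.exponent A = p ^ s ∧ Monoid.exponent B = p ^ t ∧
        p ^ m ∣ Monoid.exponent G := by
      by_cases hp2 : p = 2
      · subst hp2
        have h3 : ¬ (s = 1 ∧ t = 1) := fun h' => h2 rfl h'.1 h'.2
        exact ⟨_, by omega, r2 s t⟩
      · exact ⟨_, by omega, r1 p hp hp2 s t⟩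
    have h3 := hE.trans (h G A B hG hf hA hB)
    have h4 := (Nat.pow_dvd_pow_iff_le_right hp.one_lt).1 h3
    omega
  · intro h G _ _ A B hG hf hA hB
    apply Monoid.exponent_dvd_of_forall_pow_eq_one
    have pA : ∀ a ∈ A, a ^ p ^ s = 1 := by
      intro a ha
      have := Monoid.pow_exponent_eq_one (⟨a, ha⟩ : A)
      rw [hA] at this
      exact congrArg Subtype.val this
    have pB : ∀ b ∈ B, b ^ p ^ t = 1 := by
      intro b hb
      have := Monoid.pow_exponent_eq_one (⟨b, hb⟩ : B)
      rw [hB] at this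
      exact congrArg Subtype.val this
    intro g
    rcases h with rfl | rfl | ⟨rfl, rfl, rfl⟩
    · obtain ⟨a, ha, b, hb, rfl⟩ := hf g
      have h1 := pA a ha
      rw [pow_zero, pow_one] at h1
      rw [h1, one_mul, zero_add]
      exact pB b hb
    · obtain ⟨a, ha, b, hb, rfl⟩ := hf g
      have h1 := pB b hb
      rw [pow_zero, pow_one] at h1
      rw [h1, mul_one, add_zero]
      exact pA a ha
    · exact four A B hf (fun a ha => by rw [← pow_two, ← pow_one 2]; exact pA a ha)
        (fun b hb => by rw [← pow_two, ← pow_one 2]; exact pB b hb) g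

end Pool.Agent.Results.MP_87fd0b_al.BeyondTheProduct
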