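import Pool.Agent.H992.EX.Two

/-!
# The exponent of a product of two subgroups of a 2-group (MP_87fd0b_al)

There is a finite 2-group `G = AB` of exponent `16` with a subgroup `A` of exponent `4` and a Klein
four group `B`. More generally, for all `m`, `n` and `g ≤ m`, `g ≤ n`, `3 g ≤ m + n` there is a finite
2-group `G = AB` whose subgroups `A` and `B` have exponents `2^m` and `2^n` and whose exponent is
`2^(m + n + g)`. In particular `exp G` can be `exp A exp B min (exp A) (exp B)` if one of the
exponents is at least the square of the other, and, as a function of `exp A exp B`, a bound for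
`exp G` is at least the power `4/3` for `2`-groups. (If `A` or `B` is normal then
`exp G ≤ exp A exp B`, and the same holds if both are abelian, by a theorem of Howlett; so there is
nothing like this for `m = n = 1`.) The page has the corresponding theorem for odd `p`
(`BeyondTheProduct`, helper785), where `exp G = exp A exp B min (exp A) (exp B)` is possible for all
exponents; its examples do not exist for `p = 2`, for instance if `A` and `B` have exponent `2`.

**The example.** Let `N` be the central product of two dihedral groups of order `8`, with the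
generators `e (i, j)`, `i, j ∈ ZMod 2`, of order `2`, such that `e (i, j)` and `e (i + 1, j + 1)` do
not commute, while the other pairs commute. The translations of the plane `ZMod 2 × ZMod 2` act on
`N` by automorphisms. If `U` is the translation by `(1, 0)` then `(a · U a)² = 1` for all `a ∈ N`, and
the same holds for the translation `V` by `(0, 1)`, but `(a · U V a)² ≠ 1` for `a = e (0, 0)`. The
elements of `G` are the triples `(n, f, s)`: `s ∈ ZMod 2`, `f : ZMod 2 → ZMod 2`, and `n x ∈ N` for
each `x ∈ ZMod 2`; `s` permutes the places `x`, and `f` acts on `n x` by the translation by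
`(f x, f (x + 1))`. `A` is given by `s = 0` and `f 1 = 0`, `B` by `n = 1` and `f 0 = f 1`. If `s = 1`,
`f` is the indicator of `0` and `n 0 = e (0, 0)`, `n 1 = 1`, then `(n, f, s)` has order `16`. In
general take iterated wreath products: if `G = AB` and `H = CD`, then the regular wreath product of
`G` by `H` is the product of the subgroups of all functions with values in `A` (respectively `B`)
extended by `C` (respectively `D`), and all exponents are multiplied.
-/

set_option autoImplicit false

namespace Pool.Agent.Results.MP_87fd0b_al.TwoGroups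

/-- (1) There is a finite 2-group `G = AB` of exponent `16`, where `A` has exponent `4` and `B` is
a Klein four group. (2) For all `m`, `n` and `g ≤ m`, `g ≤ n`, `3 g ≤ m + n` there is a finite 2-group
`G = AB` of exponent `2 ^ (m + n + g)` whose subgroups `A` and `B` have exponents `2 ^ m` and
`2 ^ n`. (3) For all real `C` and `0 ≤ c < 4/3` there is a finite 2-group `G = AB` with
`C (exp A exp B) ^ c < exp G`. -/
theorem result :
    (∃ (G : Type) (_ : Group G) (_ : Finite G) (A B : Subgroup G), IsPGroup 2 G ∧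
      (∀ g : G, ∃ a ∈ A, ∃ b ∈ B, g = a * b) ∧ Monoid.exponent A = 4 ∧
        Nat.card B = 4 ∧ Monoid.exponent B = 2 ∧ Monoid.exponent G = 16) ∧
    (∀ m n g : ℕ, g ≤ m → g ≤ n → 3 * g ≤ m + n →
      ∃ (G : Type) (_ : Group G) (_ : Finite G) (A B : Subgroup G), IsPGroup 2 G ∧
        (∀ g : G, ∃ a ∈ A, ∃ b ∈ B, g = a * b) ∧ Monoid.exponent A = 2 ^ m ∧
          Monoid.exponent B = 2 ^ n ∧ Monoid.exponent G = 2 ^ (m + n + g)) ∧
    ∀ C c : ℝ, 0 ≤ c → c < 4 / 3 →
      ∃ (G : Type) (_ : Group G) (_ : Finite G) (A B : Subgroup G), IsPGroup 2 G ∧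
        (∀ g : G, ∃ a ∈ A, ∃ b ∈ B, g = a * b) ∧
          C * ((Monoid.exponent A : ℝ) * Monoid.exponent B) ^ c < Monoid.exponent G := by
  have main : ∀ m n g : ℕ, g ≤ m → g ≤ n → 3 * g ≤ m + n →
      ∃ (G : Type) (_ : Group G) (_ : Finite G) (A B : Subgroup G), IsPGroup 2 G ∧
        (∀ g : G, ∃ a ∈ A, ∃ b ∈ B, g = a * b) ∧ Monoid.exponent A = 2 ^ m ∧
          Monoid.exponent B = 2 ^ n ∧ Monoid.exponent G = 2 ^ (m + n + g) :=
    fun m n g hm hn h => (Pool.Agent.H992.EX.Two.fac_all m n g hm hn h).exponents
  refine ⟨?_, main, fun C c hc0 hc => ?_⟩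
  · obtain ⟨h1, h2, h3, h4⟩ := Pool.Agent.H992.EX.Two.exps
    exact ⟨Pool.Agent.H992.EX.Two.G, inferInstance, Pool.Agent.H992.EX.Two.G.finite,
      Pool.Agent.H992.EX.Two.A, Pool.Agent.H992.EX.Two.B, h1, Pool.Agent.H992.EX.Two.fact',
      h2, Pool.Agent.H992.EX.Two.card_B, h3, h4⟩
  -- choose `n` with `C < 2 ^ ((8 - 6 c) n)`
  have hp0 : (0 : ℝ) < 2 := by norm_num
  have hd : 0 < 8 - 6 * c := by linarith
  have hb : 1 < (2 : ℝ) ^ (8 - 6 * c) := Real.one_lt_rpow (by norm_num) hd
  obtain ⟨n, hn⟩ := pow_unbounded_of_one_lt C hb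
  obtain ⟨G, i1, i2, A, B, hpg, f, hA, hB, hG⟩ :=
    main (3 * n) (3 * n) (2 * n) (by omega) (by omega) (by omega)
  refine ⟨G, i1, i2, A, B, hpg, f, ?_⟩
  have h1 : ((Monoid.exponent A : ℝ) * Monoid.exponent B) ^ c = ((2 : ℝ) ^ (6 * c)) ^ n := by
    rw [hA, hB]
    push_cast
    rw [← pow_add, ← Real.rpow_natCast, ← Real.rpow_natCast, ← Real.rpow_mul hp0.le,
      ← Real.rpow_mul hp0.le]
    congr 1
    push_cast
    ring
  have h2 : (0 : ℝ) < ((2 : ℝ) ^ (6 * c)) ^ n := by positivity
  have h4 : 3 * n + 3 * n + 2 * n = 8 * n := by ring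
  have h5 : ((2 : ℝ) ^ (8 - 6 * c)) ^ n * ((2 : ℝ) ^ (6 * c)) ^ n = (Monoid.exponent G : ℝ) := by
    rw [hG, h4, ← mul_pow, ← Real.rpow_add hp0, Nat.cast_pow, pow_mul]
    congr 1
    rw [← Real.rpow_natCast]
    push_cast
    congr 1
    ring
  rw [← h5, h1]
  exact mul_lt_mul_of_pos_right hn h2

end Pool.Agent.Results.MP_87fd0b_al.TwoGroups
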